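import Mathlib

/-!
Dominono on boards with three rows: the auxiliary colouring game.

The squares of a board with three rows are coded by natural numbers, square `(i, j)` being
`4 * j + i`, so that two squares of the board share an edge exactly when their codes differ by
`1` or `4`.  In a position `(L, R)` the set `L` holds the squares on which Left (the first
player) may still play and `R` those on which Right (the second player) may still play.
`RW L R` says that Right, moving second, always has a reply.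
-/

namespace Pool.Agent.Lib.Dominono

/-- Adjacency of codes. -/
def adj (a b : ℕ) : Prop := a + 1 = b ∨ b + 1 = a ∨ a + 4 = b ∨ b + 4 = a

theorem adj_comm {a b : ℕ} (h : adj a b) : adj b a := by
  unfold adj at *
  omega

/-- Left's squares after Left plays `v` and Right plays `w`. -/
def nL (L : Set ℕ) (v w : ℕ) : Set ℕ := {x | x ∈ L ∧ x ≠ v ∧ ¬ adj v x ∧ x ≠ w}

/-- Right's squares after Left plays `v` and Right plays `w`. -/
def nR (R : Set ℕ) (v w : ℕ) : Set ℕ := {x | x ∈ R ∧ x ≠ v ∧ x ≠ w ∧ ¬ adj w x}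

/-- Right, moving second, can always answer. -/
inductive RW : Set ℕ → Set ℕ → Prop
  | mk (L R : Set ℕ) (f : ℕ → ℕ) (h1 : ∀ v ∈ L, f v ∈ R ∧ f v ≠ v)
      (h2 : ∀ v ∈ L, RW (nL L v (f v)) (nR R v (f v))) : RW L R

/-- Right has a good answer to Left's move `v`. -/
def Ans (L R : Set ℕ) (v : ℕ) : Prop := ∃ w, w ∈ R ∧ w ≠ v ∧ RW (nL L v w) (nR R v w)

theorem RW_of_ans {L R : Set ℕ} (h : ∀ v ∈ L, Ans L R v) : RW L R := by
  classical
  have h' : ∀ v, ∃ w, v ∈ L → (w ∈ R ∧ w ≠ v ∧ RW (nL L v w) (nR R v w)) := by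
    intro v
    by_cases hv : v ∈ L
    · obtain ⟨w, hw⟩ := h v hv
      exact ⟨w, fun _ => hw⟩
    · exact ⟨0, fun hv' => absurd hv' hv⟩
  choose f hf using h'
  exact RW.mk L R f (fun v hv => ⟨(hf v hv).1, (hf v hv).2.1⟩) (fun v hv => (hf v hv).2.2)

theorem RW.ans {L R : Set ℕ} (h : RW L R) : ∀ v ∈ L, Ans L R v := by
  cases h with
  | mk L R f h1 h2 => exact fun v hv => ⟨f v, (h1 v hv).1, (h1 v hv).2, h2 v hv⟩

theorem RW_empty (R : Set ℕ) : RW ∅ R := RW_of_ans (fun v hv => absurd hv (Set.notMem_empty v))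

theorem nL_mono {L L' : Set ℕ} (h : L' ⊆ L) (v w : ℕ) : nL L' v w ⊆ nL L v w :=
  fun _ hx => ⟨h hx.1, hx.2⟩

theorem nR_mono {R R' : Set ℕ} (h : R ⊆ R') (v w : ℕ) : nR R v w ⊆ nR R' v w :=
  fun _ hx => ⟨h hx.1, hx.2⟩

theorem RW.mono {L R : Set ℕ} (h : RW L R) :
    ∀ {L' R' : Set ℕ}, L' ⊆ L → R ⊆ R' → RW L' R' := by
  induction h with
  | mk L R f h1 h2 ih =>
    intro L' R' hL hR
    exact RW.mk L' R' f (fun v hv => ⟨hR (h1 v (hL hv)).1, (h1 v (hL hv)).2⟩)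
      (fun v hv => ih v (hL hv) (nL_mono hL v _) (nR_mono hR v _))

theorem Ans.mono {L R L' R' : Set ℕ} {v : ℕ} (h : Ans L R v) (hL : L' ⊆ L) (hR : R ⊆ R') :
    Ans L' R' v := by
  obtain ⟨w, h1, h2, h3⟩ := h
  exact ⟨w, hR h1, h2, h3.mono (nL_mono hL v w) (nR_mono hR v w)⟩

/-- Two positions on disjoint squares without edges between Right's squares. -/
def Sep (L1 R1 L2 R2 : Set ℕ) : Prop :=
  (∀ x, x ∈ L1 ∨ x ∈ R1 → ¬ (x ∈ L2 ∨ x ∈ R2)) ∧ ∀ a ∈ R1, ∀ b ∈ R2, ¬ adj a b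

theorem Sep.mono {L1 R1 L2 R2 L1' R1' L2' R2' : Set ℕ} (h : Sep L1 R1 L2 R2)
    (a1 : L1' ⊆ L1) (b1 : R1' ⊆ R1) (a2 : L2' ⊆ L2) (b2 : R2' ⊆ R2) : Sep L1' R1' L2' R2' := by
  refine ⟨fun x hx hy => h.1 x ?_ ?_, fun a ha b hb => h.2 a (b1 ha) b (b2 hb)⟩
  · rcases hx with hx | hx
    · exact Or.inl (a1 hx)
    · exact Or.inr (b1 hx)
  · rcases hy with hy | hy
    · exact Or.inl (a2 hy)
    · exact Or.inr (b2 hy)

theorem Sep.symm {L1 R1 L2 R2 : Set ℕ} (h : Sep L1 R1 L2 R2) : Sep L2 R2 L1 R1 :=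
  ⟨fun x hx hy => h.1 x hy hx, fun a ha b hb hab => h.2 b hb a ha (adj_comm hab)⟩

theorem nL_sub (L : Set ℕ) (v w : ℕ) : nL L v w ⊆ L := fun _ hx => hx.1
theorem nR_sub (R : Set ℕ) (v w : ℕ) : nR R v w ⊆ R := fun _ hx => hx.1

/-- An answer in the first position. -/
theorem ans_sum_aux {L1 R1 L2 R2 : Set ℕ} {v w : ℕ} (hs : Sep L1 R1 L2 R2)
    (hv : v ∈ L1 ∨ v ∈ R1) (hw : w ∈ R1) :
    nL (L1 ∪ L2) v w ⊆ nL L1 v w ∪ L2 ∧ nR R1 v w ∪ R2 ⊆ nR (R1 ∪ R2) v w := by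
  constructor
  · rintro x ⟨hx | hx, h⟩
    · exact Or.inl ⟨hx, h⟩
    · exact Or.inr hx
  · rintro x (hx | hx)
    · exact ⟨Or.inl hx.1, hx.2⟩
    · refine ⟨Or.inr hx, ?_, ?_, hs.2 w hw x hx⟩
      · rintro rfl
        exact hs.1 x hv (Or.inr hx)
      · rintro rfl
        exact hs.1 x (Or.inr hw) (Or.inr hx)

theorem RW.sum {L1 R1 : Set ℕ} (h1 : RW L1 R1) :
    ∀ {L2 R2 : Set ℕ}, RW L2 R2 → Sep L1 R1 L2 R2 → RW (L1 ∪ L2) (R1 ∪ R2) := by
  induction h1 with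
  | mk L1 R1 f hf1 hf2 ih1 =>
    intro L2 R2 h2
    induction h2 with
    | mk L2 R2 g hg1 hg2 ih2 =>
      intro hs
      apply RW_of_ans
      rintro v (hv | hv)
      · obtain ⟨a, b⟩ := ans_sum_aux (w := f v) hs (Or.inl hv) (hf1 v hv).1
        refine ⟨f v, Or.inl (hf1 v hv).1, (hf1 v hv).2, ?_⟩
        exact (ih1 v hv (RW.mk L2 R2 g hg1 hg2)
          (hs.mono (nL_sub _ _ _) (nR_sub _ _ _) subset_rfl subset_rfl)).mono a b
      · obtain ⟨a, b⟩ := ans_sum_aux (w := g v) hs.symm (Or.inl hv) (hg1 v hv).1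
        refine ⟨g v, Or.inr (hg1 v hv).1, (hg1 v hv).2, ?_⟩
        refine (ih2 v hv (hs.mono subset_rfl subset_rfl (nL_sub _ _ _) (nR_sub _ _ _))).mono ?_ ?_
        · rw [Set.union_comm L1 L2, Set.union_comm L1]
          exact a
        · rw [Set.union_comm R1 R2, Set.union_comm R1]
          exact b

theorem Ans.sum {L1 R1 L2 R2 : Set ℕ} {v : ℕ} (h1 : Ans L1 R1 v) (h2 : RW L2 R2)
    (hs : Sep L1 R1 L2 R2) (hv : v ∈ L1 ∨ v ∈ R1) : Ans (L1 ∪ L2) (R1 ∪ R2) v := by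
  obtain ⟨w, hw1, hw2, hw3⟩ := h1
  obtain ⟨a, b⟩ := ans_sum_aux (w := w) hs hv hw1
  exact ⟨w, Or.inl hw1, hw2,
    (hw3.sum h2 (hs.mono (nL_sub _ _ _) (nR_sub _ _ _) subset_rfl subset_rfl)).mono a b⟩

/-- Translation of a set of codes. -/
def sh (t : ℕ) (S : Set ℕ) : Set ℕ := {x | t ≤ x ∧ x - t ∈ S}

theorem mem_sh {t : ℕ} {S : Set ℕ} {x : ℕ} : x ∈ sh t S ↔ ∃ y ∈ S, x = y + t := by
  constructor
  · rintro ⟨h1, h2⟩
    exact ⟨x - t, h2, by omega⟩
  · rintro ⟨y, hy, rfl⟩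
    exact ⟨Nat.le_add_left t y, by simpa using hy⟩

theorem adj_add {a b t : ℕ} : adj (a + t) (b + t) ↔ adj a b := by
  unfold adj
  omega

theorem nL_sh (t : ℕ) (L : Set ℕ) (v w : ℕ) : nL (sh t L) (v + t) (w + t) = sh t (nL L v w) := by
  ext x
  constructor
  · rintro ⟨h1, h2, h3, h4⟩
    obtain ⟨y, hy, rfl⟩ := mem_sh.1 h1
    rw [adj_add] at h3
    exact mem_sh.2 ⟨y, ⟨hy, fun h => h2 (by rw [h]), h3, fun h => h4 (by rw [h])⟩, rfl⟩
  · intro h
    obtain ⟨y, ⟨h1, h2, h3, h4⟩, rfl⟩ := mem_sh.1 h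
    exact ⟨mem_sh.2 ⟨y, h1, rfl⟩, by omega, by rwa [adj_add], by omega⟩

theorem nR_sh (t : ℕ) (L : Set ℕ) (v w : ℕ) : nR (sh t L) (v + t) (w + t) = sh t (nR L v w) := by
  ext x
  constructor
  · rintro ⟨h1, h2, h3, h4⟩
    obtain ⟨y, hy, rfl⟩ := mem_sh.1 h1
    rw [adj_add] at h4
    exact mem_sh.2 ⟨y, ⟨hy, fun h => h2 (by rw [h]), fun h => h3 (by rw [h]), h4⟩, rfl⟩
  · intro h
    obtain ⟨y, ⟨h1, h2, h3, h4⟩, rfl⟩ := mem_sh.1 h
    exact ⟨mem_sh.2 ⟨y, h1, rfl⟩, by omega, by omega, by rwa [adj_add]⟩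

theorem RW.sh {L R : Set ℕ} (h : RW L R) (t : ℕ) : RW (sh t L) (sh t R) := by
  induction h with
  | mk L R f h1 h2 ih =>
    apply RW_of_ans
    intro v hv
    obtain ⟨y, hy, rfl⟩ := mem_sh.1 hv
    refine ⟨f y + t, mem_sh.2 ⟨f y, (h1 y hy).1, rfl⟩, ?_, ?_⟩
    · have := (h1 y hy).2
      omega
    · rw [nL_sh, nR_sh]
      exact ih y hy

theorem Ans.sh {L R : Set ℕ} {v : ℕ} (h : Ans L R v) (t : ℕ) :
    Ans (sh t L) (sh t R) (v + t) := by
  obtain ⟨w, h1, h2, h3⟩ := h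
  refine ⟨w + t, mem_sh.2 ⟨w, h1, rfl⟩, by omega, ?_⟩
  rw [nL_sh, nR_sh]
  exact h3.sh t

/-! ### Sets of codes as bit masks -/

/-- The set of codes of the bits of `m`. -/
def bits (m : ℕ) : Set ℕ := {i | m.testBit i = true}

theorem mem_bits {m i : ℕ} : i ∈ bits m ↔ m.testBit i = true := Iff.rfl

/-- The bits of `a` that are not bits of `b`. -/
def minus (a b : ℕ) : ℕ := Nat.xor a (Nat.land a b)

/-- The neighbours of a set of codes. -/
def nbm (m : ℕ) : ℕ :=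
  Nat.lor (Nat.lor (Nat.shiftLeft m 1) (Nat.shiftLeft m 4))
    (Nat.lor (Nat.shiftRight m 1) (Nat.shiftRight m 4))

theorem testBit_minus (a b i : ℕ) :
    (minus a b).testBit i = (a.testBit i && !b.testBit i) := by
  have : minus a b = a ^^^ (a &&& b) := rfl
  rw [this, Nat.testBit_xor, Nat.testBit_and]
  cases a.testBit i <;> cases b.testBit i <;> rfl

theorem bits_zero : bits 0 = ∅ := by
  ext i
  simp [bits]

theorem bits_lor (a b : ℕ) : bits (Nat.lor a b) = bits a ∪ bits b := by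
  ext i
  have : Nat.lor a b = a ||| b := rfl
  rw [this]
  simp [bits, Nat.testBit_or]

theorem bits_shiftLeft (a t : ℕ) : bits (Nat.shiftLeft a t) = sh t (bits a) := by
  ext i
  have : Nat.shiftLeft a t = a <<< t := rfl
  rw [this]
  simp [bits, sh, Nat.testBit_shiftLeft]

theorem bits_nbm (m x : ℕ) : x ∈ bits (nbm m) ↔ ∃ y ∈ bits m, adj y x := by
  have : nbm m = ((m <<< 1) ||| (m <<< 4)) ||| ((m >>> 1) ||| (m >>> 4)) := rfl
  rw [mem_bits, this]
  simp only [Nat.testBit_or, Nat.testBit_shiftLeft, Nat.testBit_shiftRight, Bool.or_eq_true,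
    Bool.and_eq_true, decide_eq_true_eq]
  constructor
  · rintro ((⟨h, h'⟩ | ⟨h, h'⟩) | (h | h))
    · exact ⟨x - 1, h', by unfold adj; omega⟩
    · exact ⟨x - 4, h', by unfold adj; omega⟩
    · exact ⟨1 + x, h, by unfold adj; omega⟩
    · exact ⟨4 + x, h, by unfold adj; omega⟩
  · rintro ⟨y, hy, h⟩
    rw [mem_bits] at hy
    rcases h with h | h | h | h
    · left; left
      exact ⟨by omega, by rw [← h, Nat.add_sub_cancel]; exact hy⟩
    · right; left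
      rw [Nat.add_comm 1 x, h]; exact hy
    · left; right
      exact ⟨by omega, by rw [← h, Nat.add_sub_cancel]; exact hy⟩
    · right; right
      rw [Nat.add_comm 4 x, h]; exact hy

/-- The bit of `v`. -/
def one (v : ℕ) : ℕ := Nat.shiftLeft 1 v

theorem mem_one {v x : ℕ} : x ∈ bits (one v) ↔ x = v := by
  have : one v = 1 <<< v := rfl
  rw [mem_bits, this, Nat.one_shiftLeft, Nat.testBit_two_pow]
  simp only [decide_eq_true_eq]
  exact eq_comm

/-- The new mask of Left. -/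
def mL (l v w : ℕ) : ℕ := minus l (Nat.lor (Nat.lor (one v) (one w)) (nbm (one v)))

/-- The new mask of Right. -/
def mR (r v w : ℕ) : ℕ := minus r (Nat.lor (Nat.lor (one v) (one w)) (nbm (one w)))

theorem mem_minus {a b i : ℕ} : i ∈ bits (minus a b) ↔ i ∈ bits a ∧ i ∉ bits b := by
  rw [mem_bits, testBit_minus]
  simp [bits]

theorem bits_mL (l v w : ℕ) : bits (mL l v w) = nL (bits l) v w := by
  ext x
  unfold mL
  rw [mem_minus, bits_lor, bits_lor]
  simp only [Set.mem_union, mem_one, bits_nbm, not_or, exists_eq_left]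
  constructor
  · rintro ⟨h1, h2⟩
    exact ⟨h1, by tauto, by tauto, by tauto⟩
  · rintro ⟨h1, h2, h3, h4⟩
    exact ⟨h1, by tauto⟩

theorem bits_mR (r v w : ℕ) : bits (mR r v w) = nR (bits r) v w := by
  ext x
  unfold mR
  rw [mem_minus, bits_lor, bits_lor]
  simp only [Set.mem_union, mem_one, bits_nbm, not_or, exists_eq_left]
  constructor
  · rintro ⟨h1, h2⟩
    exact ⟨h1, by tauto, by tauto, by tauto⟩
  · rintro ⟨h1, h2, h3, h4⟩
    exact ⟨h1, by tauto⟩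

/-- `a` is contained in `b`. -/
def subm (a b : ℕ) : Bool := Nat.beq (Nat.land a b) a

/-- `a` and `b` are disjoint. -/
def disj (a b : ℕ) : Bool := Nat.beq (Nat.land a b) 0

theorem subm_spec {a b : ℕ} (h : subm a b = true) : bits a ⊆ bits b := by
  intro x hx
  have h1 : a &&& b = a := Nat.eq_of_beq_eq_true h
  rw [mem_bits] at *
  rw [← h1, Nat.testBit_and] at hx
  simpa using (Bool.and_eq_true _ _ ▸ hx : _).2

theorem disj_spec {a b x : ℕ} (h : disj a b = true) (ha : x ∈ bits a) : x ∉ bits b := by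
  intro hb
  have h1 : a &&& b = 0 := Nat.eq_of_beq_eq_true h
  rw [mem_bits] at ha hb
  have : (a &&& b).testBit x = true := by rw [Nat.testBit_and, ha, hb]; rfl
  rw [h1] at this
  simp at this

end Pool.Agent.Lib.Dominono
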