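import Mathlib
import Pool.Agent.Lib.Dominono.Col

/-!
Dominono on boards with three rows: the certificate checker.

A certificate is a list `E` of chunks of 32 positions of 96 bits each (the lower 48 bits are the
squares of Left, the upper 48 bits those of Right) and, for each position, a number which codes
for each move of Left an answer of Right and a cover of the new position by translates of earlier
positions.
-/

namespace Pool.Agent.Lib.Dominono

/-- The `n`th element of a list. -/
def nth : List ℕ → ℕ → ℕ
  | [], _ => 0
  | a :: t, n => Nat.rec a (fun m _ => nth t m) n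

/-- The `i`th field of the certificate. -/
def fld (E : List ℕ) (i : ℕ) : ℕ :=
  Nat.land (Nat.shiftRight (nth E (Nat.div i 32)) (Nat.mul 96 (Nat.mod i 32)))
    79228162514264337593543950335

/-- Left's squares in the `i`th position. -/
def eL (E : List ℕ) (i : ℕ) : ℕ := Nat.land (fld E i) 281474976710655

/-- Right's squares in the `i`th position. -/
def eR (E : List ℕ) (i : ℕ) : ℕ := Nat.shiftRight (fld E i) 48

/-- Check of a cover of `(l, r)` by translates of positions with number less than `k`;
`U` are the squares used so far, `C` the squares of Left, `Q` the squares of Right covered. -/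
def pieces (E : List ℕ) (k l r : ℕ) : ℕ → ℕ → ℕ → ℕ → ℕ → Bool
  | 0, _, _, C, Q => and (subm l C) (subm Q r)
  | n + 1, code, U, C, Q =>
    let i := Nat.land code 4095
    let t := Nat.mul 4 (Nat.land (Nat.shiftRight code 12) 15)
    let a := Nat.shiftLeft (eL E i) t
    let b := Nat.shiftLeft (eR E i) t
    and (Nat.blt i k) (and (disj (Nat.lor a b) U) (and (disj (nbm b) Q)
      (pieces E k l r n (Nat.shiftRight code 16) (Nat.lor U (Nat.lor a b)) (Nat.lor C a)
        (Nat.lor Q b))))

/-- Check of one answer `w` to the move `v` in the position `(l, r)`. -/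
def ansOK (E : List ℕ) (k l r v w n code : ℕ) : Bool :=
  and (Nat.testBit r w) (and (not (Nat.beq w v)) (pieces E k (mL l v w) (mR r v w) n code 0 0 0))

/-- Check of the answers to the moves `v, v + 1, …`. -/
def moves (E : List ℕ) (k l r : ℕ) : ℕ → ℕ → ℕ → Bool
  | 0, _, _ => true
  | f + 1, v, code =>
    cond (Nat.testBit l v)
      (and (ansOK E k l r v (Nat.land code 63) (Nat.land (Nat.shiftRight code 6) 7)
          (Nat.shiftRight code 9))
        (moves E k l r f (Nat.succ v)
          (Nat.shiftRight code (Nat.add 9 (Nat.mul 16 (Nat.land (Nat.shiftRight code 6) 7))))))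
      (moves E k l r f (Nat.succ v) code)

/-- Check of all positions, given the list of codes of the answers. -/
def allOK (E : List ℕ) : List ℕ → ℕ → Bool
  | [], _ => true
  | c :: t, k => and (moves E k (eL E k) (eR E k) 48 0 c) (allOK E t (Nat.succ k))

/-! ### Soundness -/

theorem eL_lt (E : List ℕ) (i : ℕ) : eL E i < 2 ^ 48 := by
  have : eL E i = fld E i &&& (2 ^ 48 - 1) := rfl
  rw [this, Nat.and_two_pow_sub_one_eq_mod]
  exact Nat.mod_lt _ (by norm_num)

theorem pieces_sound {E : List ℕ} {k l r : ℕ} (hk : ∀ j < k, RW (bits (eL E j)) (bits (eR E j))) :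
    ∀ (n code U C Q : ℕ), RW (bits C) (bits Q) → (∀ x, x ∈ bits C ∨ x ∈ bits Q → x ∈ bits U) →
      pieces E k l r n code U C Q = true → RW (bits l) (bits r) := by
  intro n
  induction n with
  | zero =>
    intro code U C Q h1 _ h3
    have h3' : and (subm l C) (subm Q r) = true := h3
    rw [Bool.and_eq_true] at h3'
    exact h1.mono (subm_spec h3'.1) (subm_spec h3'.2)
  | succ n ih =>
    intro code U C Q h1 h2 h3
    unfold pieces at h3
    simp only [Bool.and_eq_true] at h3
    obtain ⟨g1, g2, g3, g4⟩ := h3
    set i := Nat.land code 4095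
    set t := Nat.mul 4 (Nat.land (Nat.shiftRight code 12) 15)
    have hi : i < k := by
      simpa [Nat.blt_eq] using g1
    refine ih _ _ _ _ ?_ ?_ g4
    · rw [bits_lor, bits_lor, bits_shiftLeft, bits_shiftLeft]
      refine h1.sum ((hk i hi).sh t) ⟨?_, ?_⟩
      · intro x hx hx'
        rw [← bits_shiftLeft, ← bits_shiftLeft] at hx'
        refine disj_spec g2 (x := x) ?_ (h2 x hx)
        rw [bits_lor]
        exact hx'
      · intro a ha b hb hab
        rw [← bits_shiftLeft] at hb
        exact disj_spec g3 ((bits_nbm _ _).2 ⟨b, hb, adj_comm hab⟩) ha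
    · intro x hx
      simp only [bits_lor, Set.mem_union] at hx ⊢
      rcases hx with (hx | hx) | (hx | hx)
      · exact Or.inl (h2 x (Or.inl hx))
      · exact Or.inr (Or.inl hx)
      · exact Or.inl (h2 x (Or.inr hx))
      · exact Or.inr (Or.inr hx)

theorem pieces_sound' {E : List ℕ} {k l r n code : ℕ}
    (hk : ∀ j < k, RW (bits (eL E j)) (bits (eR E j)))
    (h : pieces E k l r n code 0 0 0 = true) : RW (bits l) (bits r) := by
  refine pieces_sound hk n code 0 0 0 ?_ ?_ h
  · rw [bits_zero]
    exact RW_empty _
  · intro x hx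
    rcases hx with hx | hx <;> exact hx

theorem ansOK_sound {E : List ℕ} {k l r v w n code : ℕ}
    (hk : ∀ j < k, RW (bits (eL E j)) (bits (eR E j)))
    (h : ansOK E k l r v w n code = true) : Ans (bits l) (bits r) v := by
  unfold ansOK at h
  rw [Bool.and_eq_true, Bool.and_eq_true] at h
  obtain ⟨h1, h2, h3⟩ := h
  refine ⟨w, h1, ?_, ?_⟩
  · rintro rfl
    simp at h2
  · rw [← bits_mL, ← bits_mR]
    exact pieces_sound' hk h3

theorem moves_sound {E : List ℕ} {k l r : ℕ}
    (hk : ∀ j < k, RW (bits (eL E j)) (bits (eR E j))) :
    ∀ (f v code : ℕ), moves E k l r f v code = true →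
      ∀ x, v ≤ x → x < v + f → x ∈ bits l → Ans (bits l) (bits r) x := by
  intro f
  induction f with
  | zero =>
    intro v code _ x h1 h2
    omega
  | succ f ih =>
    intro v code h x h1 h2 h3
    unfold moves at h
    cases hv : Nat.testBit l v with
    | false =>
      rw [hv, cond_false] at h
      have hne : x ≠ v := by
        rintro rfl
        rw [mem_bits, hv] at h3
        exact absurd h3 (by simp)
      exact ih _ _ h x (by omega) (by omega) h3
    | true =>
      rw [hv, cond_true, Bool.and_eq_true] at h
      by_cases hx : x = v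
      · subst hx
        exact ansOK_sound hk h.1
      · exact ih _ _ h.2 x (by omega) (by omega) h3

theorem bits_lt {m x : ℕ} (hm : m < 2 ^ 48) (hx : x ∈ bits m) : x < 48 := by
  by_contra hcon
  have h1 : m < 2 ^ x := lt_of_lt_of_le hm (Nat.pow_le_pow_right (by norm_num) (by omega))
  have h2 := Nat.testBit_lt_two_pow h1
  rw [mem_bits, h2] at hx
  exact absurd hx (by simp)

theorem allOK_sound {E : List ℕ} :
    ∀ (t : List ℕ) (k : ℕ), (∀ j < k, RW (bits (eL E j)) (bits (eR E j))) →
      allOK E t k = true → ∀ j < k + t.length, RW (bits (eL E j)) (bits (eR E j)) := by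
  intro t
  induction t with
  | nil =>
    intro k hk _ j hj
    exact hk j (by simpa using hj)
  | cons c t ih =>
    intro k hk h j hj
    unfold allOK at h
    rw [Bool.and_eq_true] at h
    refine ih (k + 1) ?_ h.2 j (by simp only [List.length_cons] at hj; omega)
    intro i hi
    rcases Nat.lt_succ_iff_lt_or_eq.1 hi with hi | rfl
    · exact hk i hi
    · apply RW_of_ans
      intro x hx
      have hx' : x < 48 := bits_lt (eL_lt E i) hx
      exact moves_sound hk 48 0 c h.1 x (Nat.zero_le _) (by omega) hx

end Pool.Agent.Lib.Dominono
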