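import Mathlib
import Pool.Agent.Lib.Dominono.Cert

/-!
Dominono on boards with three rows: from the windows to all odd lengths.
-/

namespace Pool.Agent.Lib.Dominono

theorem cert_rw : ∀ j < 1701, RW (bits (eL cE j)) (bits (eR cE j)) := by
  intro j hj
  refine allOK_sound cM 0 (fun i hi => absurd hi (Nat.not_lt_zero i)) cert_ok j ?_
  rw [cM_length]
  simpa using hj

/-- The codes of the squares of the board with `n` columns. -/
def B (n : ℕ) : Set ℕ := {x | x % 4 < 3 ∧ x / 4 < n}

theorem mem_B {n x : ℕ} : x ∈ B n ↔ x % 4 < 3 ∧ x / 4 < n := Iff.rfl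

theorem bits_eq {m N : ℕ} {p : ℕ → Bool} (hm : m < 2 ^ N)
    (h : ∀ x < N, Nat.testBit m x = p x) (h' : ∀ x, N ≤ x → p x = false) :
    bits m = {x | p x = true} := by
  ext x
  rw [mem_bits]
  change _ ↔ p x = true
  by_cases hx : x < N
  · rw [h x hx]
  · have h1 : m < 2 ^ x := lt_of_lt_of_le hm (Nat.pow_le_pow_right (by norm_num) (by omega))
    rw [Nat.testBit_lt_two_pow h1, h' x (by omega)]

/-- A mask with all squares of `w` columns. -/
def Full (w l : ℕ) : Prop := bits l = B w

theorem full_of {w l : ℕ} (hm : l < 2 ^ (4 * w))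
    (h : ∀ x < 4 * w, Nat.testBit l x = decide (x % 4 < 3)) : Full w l := by
  unfold Full
  rw [bits_eq (p := fun x => decide (x % 4 < 3) && decide (x < 4 * w)) hm]
  · ext x
    rw [mem_B]
    change (decide (x % 4 < 3) && decide (x < 4 * w)) = true ↔ _
    rw [Bool.and_eq_true, decide_eq_true_iff, decide_eq_true_iff]
    omega
  · intro x hx
    rw [h x hx]
    simp [hx]
  · intro x hx
    have : ¬ x < 4 * w := by omega
    simp [this]

theorem full1 : Full 1 7 := full_of (by norm_num) (by decide)
theorem full3 : Full 3 1911 := full_of (by norm_num) (by decide)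
theorem full4 : Full 4 30583 := full_of (by norm_num) (by decide)
theorem full7 : Full 7 125269879 := full_of (by norm_num) (by decide)
theorem full11 : Full 11 8209686820727 := full_of (by norm_num) (by decide)

/-- Right's squares in the chain of blocks on the left. -/
def RC (a : ℕ) : Set ℕ :=
  {x | x % 4 < 3 ∧ x / 4 < 4 * a ∧ (x / 4 % 4 = 0 → x % 4 ≠ 1) ∧ (x / 4 % 4 = 3 → x % 4 = 1)}

/-- Right's squares in the chain of blocks on the right. -/
def RM (a : ℕ) : Set ℕ :=
  {x | x % 4 < 3 ∧ x / 4 < 4 * a ∧ (x / 4 % 4 = 0 → x % 4 = 1) ∧ (x / 4 % 4 = 3 → x % 4 ≠ 1)}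

theorem bits_blk : bits 10101 = RC 1 := by
  rw [bits_eq (N := 16) (p := fun x => decide (x % 4 < 3 ∧ x / 4 < 4 * 1 ∧
    (x / 4 % 4 = 0 → x % 4 ≠ 1) ∧ (x / 4 % 4 = 3 → x % 4 = 1))) (by norm_num) (by decide)]
  · ext x
    change decide _ = true ↔ _
    rw [decide_eq_true_iff]
    rfl
  · intro x hx
    rw [decide_eq_false_iff_not]
    omega

theorem bits_mblk : bits 22386 = RM 1 := by
  rw [bits_eq (N := 16) (p := fun x => decide (x % 4 < 3 ∧ x / 4 < 4 * 1 ∧
    (x / 4 % 4 = 0 → x % 4 = 1) ∧ (x / 4 % 4 = 3 → x % 4 ≠ 1))) (by norm_num) (by decide)]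
  · ext x
    change decide _ = true ↔ _
    rw [decide_eq_true_iff]
    rfl
  · intro x hx
    rw [decide_eq_false_iff_not]
    omega

theorem rw_blk : RW (B 4) (RC 1) := by
  have h : RW (bits 30583) (bits 10101) :=
    pieces_sound' (n := 1) (code := 1529) cert_rw (by decide +kernel)
  have h4 : bits 30583 = B 4 := full4
  rwa [h4, bits_blk] at h

theorem rw_mblk : RW (B 4) (RM 1) := by
  have h : RW (bits 30583) (bits 22386) :=
    pieces_sound' (n := 1) (code := 1530) cert_rw (by decide +kernel)
  have h4 : bits 30583 = B 4 := full4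
  rwa [h4, bits_mblk] at h

theorem rw_one : RW (bits 7) (bits 5) :=
  pieces_sound' (n := 1) (code := 86) cert_rw (by decide +kernel)

theorem left_chain (a : ℕ) : RW (B (4 * a)) (RC a) := by
  induction a with
  | zero =>
    refine (RW_empty (RC 0)).mono ?_ subset_rfl
    intro x hx
    rw [mem_B] at hx
    omega
  | succ a ih =>
    have hs : Sep (B (4 * a)) (RC a) (sh (16 * a) (B 4)) (sh (16 * a) (RC 1)) := by
      constructor
      · rintro x hx (⟨h1, _⟩ | ⟨h1, _⟩)
        all_goals
          rcases hx with hx | hx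
          · rw [mem_B] at hx
            omega
          · obtain ⟨_, h2, _⟩ := hx
            omega
      · rintro x ⟨h1, h2, h3, h4⟩ y ⟨g0, g1, g2, g3, g4⟩ hxy
        unfold adj at hxy
        omega
    refine (ih.sum (rw_blk.sh (16 * a)) hs).mono ?_ ?_
    · intro x hx
      rw [mem_B] at hx
      by_cases h : x / 4 < 4 * a
      · exact Or.inl ⟨hx.1, h⟩
      · exact Or.inr ⟨by omega, by rw [mem_B]; omega⟩
    · rintro x (⟨h1, h2, h3, h4⟩ | ⟨g0, g1, g2, g3, g4⟩)
      · exact ⟨h1, by omega, h3, h4⟩
      · exact ⟨by omega, by omega, by omega, by omega⟩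

theorem right_chain (a : ℕ) : RW (B (4 * a)) (RM a) := by
  induction a with
  | zero =>
    refine (RW_empty (RM 0)).mono ?_ subset_rfl
    intro x hx
    rw [mem_B] at hx
    omega
  | succ a ih =>
    have hs : Sep (B (4 * a)) (RM a) (sh (16 * a) (B 4)) (sh (16 * a) (RM 1)) := by
      constructor
      · rintro x hx (⟨h1, _⟩ | ⟨h1, _⟩)
        all_goals
          rcases hx with hx | hx
          · rw [mem_B] at hx
            omega
          · obtain ⟨_, h2, _⟩ := hx
            omega
      · rintro x ⟨h1, h2, h3, h4⟩ y ⟨g0, g1, g2, g3, g4⟩ hxy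
        unfold adj at hxy
        omega
    refine (ih.sum (rw_mblk.sh (16 * a)) hs).mono ?_ ?_
    · intro x hx
      rw [mem_B] at hx
      by_cases h : x / 4 < 4 * a
      · exact Or.inl ⟨hx.1, h⟩
      · exact Or.inr ⟨by omega, by rw [mem_B]; omega⟩
    · rintro x (⟨h1, h2, h3, h4⟩ | ⟨g0, g1, g2, g3, g4⟩)
      · exact ⟨h1, by omega, h3, h4⟩
      · exact ⟨by omega, by omega, by omega, by omega⟩

/-- A window of `w` columns with `4 * a` columns before and `4 * c` columns after it. -/
theorem window {w l r v : ℕ} (hw : 0 < w) (hl : Full w l) (hr : bits r ⊆ B w)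
    (hv : v ∈ B w) (h : Ans (bits l) (bits r) v) (a c : ℕ)
    (ha : a = 0 ∨ 1 ∉ bits r) (hc : c = 0 ∨ 4 * (w - 1) + 1 ∉ bits r) :
    Ans (B (4 * a + w + 4 * c)) (B (4 * a + w + 4 * c)) (v + 16 * a) := by
  unfold Full at hl
  rw [hl] at h
  have hr' : ∀ x ∈ bits r, x % 4 < 3 ∧ x / 4 < w := fun x hx => hr hx
  have hv' : v % 4 < 3 ∧ v / 4 < w := hv
  have h1 := h.sh (16 * a)
  have hs1 : Sep (sh (16 * a) (B w)) (sh (16 * a) (bits r)) (B (4 * a)) (RC a) := by
    constructor
    · rintro x hx hx'
      have e1 : 16 * a ≤ x := by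
        rcases hx with hx | hx <;> exact hx.1
      have e2 : x / 4 < 4 * a := by
        rcases hx' with hx' | hx'
        · exact hx'.2
        · exact hx'.2.1
      omega
    · rintro x ⟨g0, g1⟩ y ⟨h1, h2, h3, h4⟩ hxy
      have g2 := hr' _ g1
      have hne : x - 16 * a ≠ 1 := by
        intro h0
        rcases ha with ha | ha
        · omega
        · rw [h0] at g1
          exact ha g1
      unfold adj at hxy
      omega
  have h2 := h1.sum (left_chain a) hs1 (Or.inl ⟨Nat.le_add_left _ _, by
    rw [Nat.add_sub_cancel]; exact hv⟩)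
  have hs2 : Sep (sh (16 * a) (B w) ∪ B (4 * a)) (sh (16 * a) (bits r) ∪ RC a)
      (sh (16 * a + 4 * w) (B (4 * c))) (sh (16 * a + 4 * w) (RM c)) := by
    constructor
    · rintro x hx hx'
      have e1 : 16 * a + 4 * w ≤ x := by
        rcases hx' with hx' | hx' <;> exact hx'.1
      have e2 : x < 16 * a + 4 * w := by
        rcases hx with (hx | hx) | (hx | hx)
        · obtain ⟨g0, g1, g2⟩ := hx
          omega
        · obtain ⟨g0, g1⟩ := hx
          omega
        · obtain ⟨g0, g1⟩ := hx
          have := hr' _ g1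
          omega
        · obtain ⟨g0, g1, _⟩ := hx
          omega
      omega
    · rintro x hx y ⟨h0, h1, h2, h3, h4⟩ hxy
      have hx' : x < 16 * a + 4 * w ∧ x % 4 < 3 ∧
          (c = 0 ∨ x ≠ 16 * a + 4 * (w - 1) + 1) := by
        rcases hx with hx | hx
        · obtain ⟨g0, g1⟩ := hx
          have g2 := hr' _ g1
          refine ⟨by omega, by omega, ?_⟩
          rcases hc with hc | hc
          · exact Or.inl hc
          · right
            intro h5
            apply hc
            have : x - 16 * a = 4 * (w - 1) + 1 := by omega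
            rwa [this] at g1
        · obtain ⟨g0, g1, _⟩ := hx
          exact ⟨by omega, g0, by omega⟩
      unfold adj at hxy
      omega
  have h3 := h2.sum ((right_chain c).sh (16 * a + 4 * w)) hs2 (Or.inl (Or.inl
    ⟨Nat.le_add_left _ _, by rw [Nat.add_sub_cancel]; exact hv⟩))
  refine h3.mono ?_ ?_
  · intro x hx
    rw [mem_B] at hx
    by_cases e1 : x / 4 < 4 * a
    · exact Or.inl (Or.inr ⟨hx.1, e1⟩)
    · by_cases e2 : x / 4 < 4 * a + w
      · exact Or.inl (Or.inl ⟨by omega, by rw [mem_B]; omega⟩)
      · exact Or.inr ⟨by omega, by rw [mem_B]; omega⟩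
  · rintro x ((⟨g0, g1⟩ | ⟨g0, g1, g2, g3⟩) | ⟨g0, g1, g2, g3, g4⟩)
    · have := hr' _ g1
      rw [mem_B]
      omega
    · rw [mem_B]
      omega
    · rw [mem_B]
      omega

/-- The window theorem with computable side conditions. -/
theorem window' {w l r v u n code : ℕ} (hw : 0 < w) (hl : Full w l) (hr : subm r l = true)
    (hv : Nat.testBit l v = true) (h : ansOK cE 1701 l r v u n code = true) (a c : ℕ)
    (ha : a = 0 ∨ Nat.testBit r 1 = false) (hc : c = 0 ∨ Nat.testBit r (4 * (w - 1) + 1) = false) :
    Ans (B (4 * a + w + 4 * c)) (B (4 * a + w + 4 * c)) (v + 16 * a) := by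
  refine window hw hl ?_ ?_ (ansOK_sound cert_rw h) a c ?_ ?_
  · have h1 := subm_spec hr
    unfold Full at hl
    rwa [hl] at h1
  · have h1 : v ∈ bits l := hv
    unfold Full at hl
    rwa [hl] at h1
  · rcases ha with ha | ha
    · exact Or.inl ha
    · right
      rw [mem_bits, ha]
      simp
  · rcases hc with hc | hc
    · exact Or.inl hc
    · right
      rw [mem_bits, hc]
      simp

theorem win3 {v : ℕ} (hv : v = 1 ∨ v = 4 ∨ v = 6 ∨ v = 9) (a c : ℕ) :
    Ans (B (4 * a + 3 + 4 * c)) (B (4 * a + 3 + 4 * c)) (v + 16 * a) := by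
  rcases hv with rfl | rfl | rfl | rfl
  · exact window' (l := 1911) (r := 1397) (u := 8) (n := 2) (code := 4265) (by norm_num) full3
      (by decide +kernel) (by decide +kernel) (by decide +kernel) a c (Or.inr (by decide +kernel))
      (Or.inr (by decide +kernel))
  · exact window' (l := 1911) (r := 1397) (u := 6) (n := 2) (code := 542572631) (by norm_num) full3
      (by decide +kernel) (by decide +kernel) (by decide +kernel) a c (Or.inr (by decide +kernel))
      (Or.inr (by decide +kernel))
  · exact window' (l := 1911) (r := 1397) (u := 4) (n := 2) (code := 542638168) (by norm_num) full3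
      (by decide +kernel) (by decide +kernel) (by decide +kernel) a c (Or.inr (by decide +kernel))
      (Or.inr (by decide +kernel))
  · exact window' (l := 1911) (r := 1397) (u := 8) (n := 2) (code := 279576662) (by norm_num) full3
      (by decide +kernel) (by decide +kernel) (by decide +kernel) a c (Or.inr (by decide +kernel))
      (Or.inr (by decide +kernel))

theorem win3l {v : ℕ} (hv : v = 0 ∨ v = 2 ∨ v = 5) (c : ℕ) :
    Ans (B (4 * 0 + 3 + 4 * c)) (B (4 * 0 + 3 + 4 * c)) (v + 16 * 0) := by
  rcases hv with rfl | rfl | rfl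
  · exact window' (l := 1911) (r := 1399) (u := 10) (n := 1) (code := 819) (by norm_num) full3
      (by decide +kernel) (by decide +kernel) (by decide +kernel) 0 c (Or.inl rfl)
      (Or.inr (by decide +kernel))
  · exact window' (l := 1911) (r := 1399) (u := 8) (n := 1) (code := 820) (by norm_num) full3
      (by decide +kernel) (by decide +kernel) (by decide +kernel) 0 c (Or.inl rfl)
      (Or.inr (by decide +kernel))
  · exact window' (l := 1911) (r := 1399) (u := 8) (n := 1) (code := 397) (by norm_num) full3
      (by decide +kernel) (by decide +kernel) (by decide +kernel) 0 c (Or.inl rfl)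
      (Or.inr (by decide +kernel))

theorem win3r {v : ℕ} (hv : v = 8 ∨ v = 10) (a : ℕ) :
    Ans (B (4 * a + 3 + 4 * 0)) (B (4 * a + 3 + 4 * 0)) (v + 16 * a) := by
  rcases hv with rfl | rfl
  · exact window' (l := 1911) (r := 1909) (u := 2) (n := 1) (code := 821) (by norm_num) full3
      (by decide +kernel) (by decide +kernel) (by decide +kernel) a 0
      (Or.inr (by decide +kernel)) (Or.inl rfl)
  · exact window' (l := 1911) (r := 1909) (u := 0) (n := 1) (code := 822) (by norm_num) full3
      (by decide +kernel) (by decide +kernel) (by decide +kernel) a 0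
      (Or.inr (by decide +kernel)) (Or.inl rfl)

theorem win7 {v : ℕ} (hv : v = 12 ∨ v = 14 ∨ v = 16 ∨ v = 18 ∨ v = 21 ∨ v = 8 ∨ v = 10)
    (a c : ℕ) : Ans (B (4 * a + 7 + 4 * c)) (B (4 * a + 7 + 4 * c)) (v + 16 * a) := by
  rcases hv with rfl | rfl | rfl | rfl | rfl | rfl | rfl
  · exact window' (l := 125269879) (r := 91715445) (u := 10) (n := 4)
      (code := 6941808530110350307) (by norm_num) full7
      (by decide +kernel) (by decide +kernel) (by decide +kernel) a c (Or.inr (by decide +kernel))
      (Or.inr (by decide +kernel))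
  · exact window' (l := 125269879) (r := 91715445) (u := 8) (n := 4)
      (code := 6941808534405383140) (by norm_num) full7
      (by decide +kernel) (by decide +kernel) (by decide +kernel) a c (Or.inr (by decide +kernel))
      (Or.inr (by decide +kernel))
  · exact window' (l := 125269879) (r := 91715445) (u := 26) (n := 1)
      (code := 1681) (by norm_num) full7
      (by decide +kernel) (by decide +kernel) (by decide +kernel) a c (Or.inr (by decide +kernel))
      (Or.inr (by decide +kernel))
  · exact window' (l := 125269879) (r := 91715445) (u := 24) (n := 1)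
      (code := 1682) (by norm_num) full7
      (by decide +kernel) (by decide +kernel) (by decide +kernel) a c (Or.inr (by decide +kernel))
      (Or.inr (by decide +kernel))
  · exact window' (l := 125269879) (r := 91715445) (u := 24) (n := 2)
      (code := 374014038) (by norm_num) full7
      (by decide +kernel) (by decide +kernel) (by decide +kernel) a c (Or.inr (by decide +kernel))
      (Or.inr (by decide +kernel))
  · exact window' (l := 125269879) (r := 91715445) (u := 2) (n := 1)
      (code := 1683) (by norm_num) full7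
      (by decide +kernel) (by decide +kernel) (by decide +kernel) a c (Or.inr (by decide +kernel))
      (Or.inr (by decide +kernel))
  · exact window' (l := 125269879) (r := 91715445) (u := 0) (n := 1)
      (code := 1684) (by norm_num) full7
      (by decide +kernel) (by decide +kernel) (by decide +kernel) a c (Or.inr (by decide +kernel))
      (Or.inr (by decide +kernel))

theorem win7r (a : ℕ) :
    Ans (B (4 * a + 7 + 4 * 0)) (B (4 * a + 7 + 4 * 0)) (13 + 16 * a) :=
  window' (l := 125269879) (r := 125269877) (u := 8) (n := 2) (code := 1150812983) (by norm_num)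
    full7 (by decide +kernel) (by decide +kernel) (by decide +kernel) a 0
    (Or.inr (by decide +kernel)) (Or.inl rfl)

theorem win11 (a c : ℕ) :
    Ans (B (4 * a + 11 + 4 * c)) (B (4 * a + 11 + 4 * c)) (13 + 16 * a) :=
  window' (l := 8209686820727) (r := 6010663565173) (u := 8) (n := 1) (code := 1700)
    (by norm_num) full11 (by decide +kernel) (by decide +kernel) (by decide +kernel) a c
    (Or.inr (by decide +kernel)) (Or.inr (by decide +kernel))

/-- Boards with `4 * k + 1` columns. -/
theorem rw_one_mod (k : ℕ) : RW (B (4 * k + 1)) (B (4 * k + 1)) := by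
  have h5 : ∀ x ∈ bits 5, x = 0 ∨ x = 2 := by
    intro x hx
    have h1 : x < 3 := by
      by_contra hcon
      have h1 : 5 < 2 ^ x := lt_of_lt_of_le (by norm_num) (Nat.pow_le_pow_right (by norm_num)
        (by omega : 3 ≤ x))
      rw [mem_bits, Nat.testBit_lt_two_pow h1] at hx
      exact absurd hx (by simp)
    have h2 : x ≠ 1 := by
      rintro rfl
      rw [mem_bits] at hx
      exact absurd hx (by decide)
    omega
  have hs : Sep (B (4 * k)) (RC k) (sh (16 * k) (bits 7)) (sh (16 * k) (bits 5)) := by
    constructor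
    · rintro x hx hx'
      have e1 : 16 * k ≤ x := by
        rcases hx' with hx' | hx' <;> exact hx'.1
      have e2 : x / 4 < 4 * k := by
        rcases hx with hx | hx
        · exact hx.2
        · exact hx.2.1
      omega
    · rintro x ⟨h1, h2, h3, h4⟩ y ⟨g0, g1⟩ hxy
      have := h5 _ g1
      unfold adj at hxy
      omega
  refine ((left_chain k).sum (rw_one.sh (16 * k)) hs).mono ?_ ?_
  · intro x hx
    rw [mem_B] at hx
    by_cases h : x / 4 < 4 * k
    · exact Or.inl ⟨hx.1, h⟩
    · refine Or.inr ⟨by omega, ?_⟩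
      have h1 : bits 7 = B 1 := full1
      rw [h1, mem_B]
      omega
  · rintro x (⟨h1, h2, h3, h4⟩ | ⟨g0, g1⟩)
    · exact ⟨h1, by omega⟩
    · have := h5 _ g1
      rw [mem_B]
      omega

/-- Boards with `4 * k + 3` columns. -/
theorem rw_three_mod (k : ℕ) : RW (B (4 * k + 3)) (B (4 * k + 3)) := by
  apply RW_of_ans
  intro v hv
  rw [mem_B] at hv
  obtain ⟨hv1, hv2⟩ := hv
  -- the general rule
  have key : ∀ a w c u, 4 * a + w + 4 * c = 4 * k + 3 → u + 16 * a = v →
      Ans (B (4 * a + w + 4 * c)) (B (4 * a + w + 4 * c)) (u + 16 * a) →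
      Ans (B (4 * k + 3)) (B (4 * k + 3)) v := by
    intro a w c u h1 h2 h3
    rwa [h1, h2] at h3
  have hq : v = 4 * (v / 4) + v % 4 := by omega
  have hj : v / 4 = 4 * (v / 4 / 4) + v / 4 % 4 := by omega
  set i := v % 4 with hi
  set j := v / 4 with hjdef
  set q := j / 4 with hqdef
  have hr : j % 4 = 0 ∨ j % 4 = 1 ∨ j % 4 = 2 ∨ j % 4 = 3 := by omega
  have hi3 : i = 0 ∨ i = 1 ∨ i = 2 := by omega
  rcases hr with hr | hr | hr | hr
  · rcases hi3 with h | h | h
    · rcases Nat.eq_zero_or_pos q with h0 | h0
      · exact key 0 3 k 0 (by omega) (by omega) (win3l (Or.inl rfl) k)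
      · exact key (q - 1) 7 (k - q) 16 (by omega) (by omega) (win7 (by omega) _ _)
    · exact key q 3 (k - q) 1 (by omega) (by omega) (win3 (by omega) _ _)
    · rcases Nat.eq_zero_or_pos q with h0 | h0
      · exact key 0 3 k 2 (by omega) (by omega) (win3l (by omega) k)
      · exact key (q - 1) 7 (k - q) 18 (by omega) (by omega) (win7 (by omega) _ _)
  · rcases hi3 with h | h | h
    · exact key q 3 (k - q) 4 (by omega) (by omega) (win3 (by omega) _ _)
    · rcases Nat.eq_zero_or_pos q with h0 | h0
      · exact key 0 3 k 5 (by omega) (by omega) (win3l (by omega) k)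
      · exact key (q - 1) 7 (k - q) 21 (by omega) (by omega) (win7 (by omega) _ _)
    · exact key q 3 (k - q) 6 (by omega) (by omega) (win3 (by omega) _ _)
  · rcases hi3 with h | h | h
    · by_cases h0 : q = k
      · exact key q 3 0 8 (by omega) (by omega) (win3r (by omega) q)
      · exact key q 7 (k - q - 1) 8 (by omega) (by omega) (win7 (by omega) _ _)
    · exact key q 3 (k - q) 9 (by omega) (by omega) (win3 (by omega) _ _)
    · by_cases h0 : q = k
      · exact key q 3 0 10 (by omega) (by omega) (win3r (by omega) q)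
      · exact key q 7 (k - q - 1) 10 (by omega) (by omega) (win7 (by omega) _ _)
  · rcases hi3 with h | h | h
    · exact key q 7 (k - q - 1) 12 (by omega) (by omega) (win7 (by omega) _ _)
    · by_cases h0 : q + 1 = k
      · exact key q 7 0 13 (by omega) (by omega) (win7r q)
      · exact key q 11 (k - q - 2) 13 (by omega) (by omega) (win11 _ _)
    · exact key q 7 (k - q - 1) 14 (by omega) (by omega) (win7 (by omega) _ _)

/-- On every board with three rows and an odd number of columns, Right wins moving second. -/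
theorem rw_odd {n : ℕ} (hn : Odd n) : RW (B n) (B n) := by
  obtain ⟨m, rfl⟩ := hn
  rcases Nat.even_or_odd m with ⟨k, rfl⟩ | ⟨k, rfl⟩
  · have := rw_one_mod k
    rwa [show 2 * (k + k) + 1 = 4 * k + 1 by ring]
  · have := rw_three_mod k
    rwa [show 2 * (2 * k + 1) + 1 = 4 * k + 3 by ring]

end Pool.Agent.Lib.Dominono
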